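import Pool.Agent.PCO.StmtsB

/-!
# PCO, row LMT: limits of bounded sequences of linear maps
-/

set_option autoImplicit false

open Matrix Filter Topology

namespace Pool.Agent.PCO.H16

open Pool.Agent.PFS Pool.Agent.PFJ Pool.Agent.PCO

theorem lmt1 (n : ℕ) (A : ℕ → (V n →ₗ[ℝ] V n)) (B : ℝ) (hA : ∀ m y, ‖A m y‖ ≤ B * ‖y‖) :
    ∃ (φ : ℕ → ℕ) (T : V n →ₗ[ℝ] V n), StrictMono φ ∧
      ∀ (y : ℕ → V n) (y0 : V n), Tendsto y atTop (𝓝 y0) →
        Tendsto (fun m => A (φ m) (y m)) atTop (𝓝 (T y0)) := by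
  have hexp : ∀ (L : V n →ₗ[ℝ] V n) (y : V n),
      L y = ∑ i, y i • L (Pi.single i 1) := by
    intro L y
    conv_lhs => rw [← Finset.univ_sum_single y]
    rw [map_sum]
    refine Finset.sum_congr rfl fun i _ => ?_
    rw [← map_smul]
    congr 1
    rw [← Pi.single_smul, smul_eq_mul, mul_one]
  have hbd : ∀ m, (fun i => A m (Pi.single i 1)) ∈
      Metric.closedBall (0 : Fin n → V n) |B| := by
    intro m
    rw [mem_closedBall_zero_iff, pi_norm_le_iff_of_nonneg (abs_nonneg B)]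
    intro i
    refine (hA m _).trans ?_
    have h1 : ‖(Pi.single i (1 : ℝ) : V n)‖ = 1 := by
      rw [Pi.norm_single, norm_one]
    rw [h1, mul_one]
    exact le_abs_self B
  obtain ⟨t, _, φ, hφ, hlim⟩ := tendsto_subseq_of_bounded Metric.isBounded_closedBall hbd
  refine ⟨φ, Fintype.linearCombination ℝ t, hφ, fun y y0 hy => ?_⟩
  rw [Fintype.linearCombination_apply]
  have h2 : (fun m => A (φ m) (y m)) = fun m => ∑ i, y m i • A (φ m) (Pi.single i 1) := by
    funext m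
    exact hexp _ _
  rw [h2]
  refine tendsto_finsetSum _ fun i _ => ?_
  exact ((tendsto_pi_nhds.1 hy) i).smul ((tendsto_pi_nhds.1 hlim) i)

theorem lmt : LmtStmt := by
  intro n
  refine ⟨fun A B hA => lmt1 n A B hA, ?_⟩
  intro C Γ hC g s B hg hs hB
  obtain ⟨φ, T, hφ, hT⟩ := lmt1 n
    (fun m => s m • Matrix.mulVecLin ((g m : GL (Fin n) ℝ) : Matrix (Fin n) (Fin n) ℝ)) B
    (fun m y => hB m y)
  have hT' : ∀ (y : ℕ → V n) (y0 : V n), Tendsto y atTop (𝓝 y0) →
      Tendsto (fun m => s (φ m) • act (g (φ m)) (y m)) atTop (𝓝 (T y0)) := fun y y0 hy => hT y y0 hy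
  refine ⟨φ, T, hφ, fun x hx => ?_, hT'⟩
  exact isClosed_closure.mem_of_tendsto (hT' (fun _ => x) x tendsto_const_nhds)
    (Eventually.of_forall fun m => (hC.sact_cl_iff (hg _) (hs _)).2 hx)

end Pool.Agent.PCO.H16
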